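import Pool.Agent.H200W.Stm5

/-!
# Project WR (helper200), job NEFEXP: expected dimensions imply nefness
-/

set_option autoImplicit false

namespace Pool.Agent.Q14.WR

open MvPolynomial Finset Pool.Agent.H932R3 Pool.Agent.W609.CR

theorem two_choose (x : ℕ) : 2 * (x + 1).choose 2 = x ^ 2 + x := by
  have h1 := Nat.triangle_succ x
  have h2 : (x + 1) * x / 2 = (x + 1).choose 2 := by
    rw [Nat.choose_two_right]
    rfl
  have h3 : 2 ∣ (x + 1) * x := by
    rw [mul_comm]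
    exact (Nat.even_mul_succ_self x).two_dvd
  rw [← h2, Nat.mul_div_cancel' h3]
  ring

theorem two_choose2 (x : ℕ) : 2 * (x + 2).choose 2 = x ^ 2 + 3 * x + 2 := by
  have h1 := two_choose (x + 1)
  have h2 : x + 1 + 1 = x + 2 := rfl
  rw [h2] at h1
  rw [h1]
  ring

/-- Multiplication with a power of a form. -/
theorem fin_le {n : ℕ} {P : Fin n → Fin 2 → ℂ} {a b g : ℕ} {x y z : Fin n → ℕ}
    {G : MvPolynomial (Fin 3) ℂ} (hG : G ≠ 0) (hGg : G.IsHomogeneous g)
    (hGz : ∀ i, Van (aff (P i)) (z i) G) (hab : g + a = b) (hxy : ∀ i, y i ≤ z i + x i) :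
    Module.finrank ℂ ↥(VS (fun i => aff (P i)) x a) ≤
      Module.finrank ℂ ↥(VS (fun i => aff (P i)) y b) := by
  have hfin := vs_fin (fun i => aff (P i)) y b
  have hinj : Function.Injective (LinearMap.mulLeft ℂ G) := by
    intro p q hpq
    exact mul_left_cancel₀ hG hpq
  have h1 : Submodule.map (LinearMap.mulLeft ℂ G) (VS (fun i => aff (P i)) x a) ≤
      VS (fun i => aff (P i)) y b := by
    rintro _ ⟨f, hf, rfl⟩
    unfold VS at hf ⊢
    rw [SetLike.mem_coe, Submodule.mem_inf, Submodule.restrictScalars_mem, Ideal.mem_iInf,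
      mem_homogeneousSubmodule] at hf
    rw [Submodule.mem_inf, Submodule.restrictScalars_mem, Ideal.mem_iInf,
      mem_homogeneousSubmodule]
    refine ⟨?_, fun i => ?_⟩
    · rw [← hab]
      exact hGg.mul hf.1
    · exact Pool.Agent.TH167.SH.van_mono (hxy i)
        (Pool.Agent.TH167.SH.van_mul (hGz i) (hf.2 i))
  rw [LinearEquiv.finrank_eq (Submodule.equivMapOfInjective _ hinj
    (VS (fun i => aff (P i)) x a))]
  exact Submodule.finrank_mono h1

theorem nefExp : Pool.Agent.H200W.S_NefExp := by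
  intro n P v d k0 hv hexp G e u hG hGe hGu
  by_contra hcon
  push Not at hcon
  have hd : 1 ≤ d := by
    by_contra h
    have hd0 : d = 0 := by omega
    subst hd0
    have h1 : ∀ i, v i = 0 := by
      intro i
      have h2 : v i ^ 2 ≤ ∑ i, v i ^ 2 :=
        Finset.single_le_sum (f := fun i => v i ^ 2) (fun _ _ => Nat.zero_le _) (mem_univ i)
      have h3 : v i ^ 2 ≤ 0 := by
        refine h2.trans (hv.trans ?_)
        norm_num
      exact pow_eq_zero_iff (two_ne_zero) |>.1 (Nat.le_zero.1 h3)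
    simp [h1] at hcon
  obtain ⟨V, hV⟩ : ∃ V, V = ∑ i, v i := ⟨_, rfl⟩
  obtain ⟨U, hU⟩ : ∃ U, U = ∑ i, u i ^ 2 := ⟨_, rfl⟩
  obtain ⟨W, hW⟩ : ∃ W, W = ∑ i, v i * u i := ⟨_, rfl⟩
  obtain ⟨Q, hQ⟩ : ∃ Q, Q = ∑ i, v i ^ 2 := ⟨_, rfl⟩
  obtain ⟨N, hN⟩ : ∃ N, N = U + e + 1 := ⟨_, rfl⟩
  obtain ⟨t, ht⟩ : ∃ t, t = k0 + N * V + 3 * (N * d) + 3 := ⟨_, rfl⟩
  obtain ⟨c, hc⟩ : ∃ c, c + e = N * d := by
    refine ⟨N * d - e, Nat.sub_add_cancel ?_⟩
    nlinarith
  have hk0 : k0 ≤ N * t := by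
    have h1 : t ≤ N * t := Nat.le_mul_of_pos_left t (by omega)
    omega
  -- the forms of degree `t * c`
  have key := fin_le (P := P) (a := t * c) (b := N * t * d) (g := t * e)
    (x := fun i => t * (N * v i - u i)) (y := fun i => N * t * v i) (z := fun i => t * u i)
    (pow_ne_zero t hG) (by rw [mul_comm t e]; exact hGe.pow t)
    (fun i => Pool.Agent.TH167.SH.van_pow (hGu i) t)
    (by rw [← mul_add, add_comm e c, hc]; ring)
    (fun i => by
      rw [← mul_add]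
      have h1 : N * v i ≤ u i + (N * v i - u i) := by omega
      have h2 := Nat.mul_le_mul_left t h1
      nlinarith)
  have hlo := le_dim (fun i => t * (N * v i - u i)) P (t * c)
  rw [← vs_eq_forms] at hlo
  have hup := hexp (N * t) hk0
  have hup2 : Module.finrank ℂ ↥(VS (fun j => aff (P j)) (fun i => N * t * v i) (N * t * d)) =
      Nat.choose (N * t * d + 2) 2 - ∑ i, Nat.choose (N * t * v i + 1) 2 := by
    rw [vs_eq_forms]
    exact hup
  rw [hup2] at key
  -- the numbers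
  have e1 : 2 * ∑ i, Nat.choose (N * t * v i + 1) 2 = (N * t) ^ 2 * Q + N * t * V := by
    rw [hQ, hV, mul_sum, mul_sum, mul_sum, ← sum_add_distrib]
    refine sum_congr rfl fun i _ => ?_
    rw [two_choose]
    ring
  have e2 : 2 * Nat.choose (N * t * d + 2) 2 = (N * t) ^ 2 * d ^ 2 + 3 * (N * t * d) + 2 := by
    rw [two_choose2]
    ring
  have e3 : 2 * Nat.choose (t * c + 2) 2 = t ^ 2 * c ^ 2 + 3 * (t * c) + 2 := by
    rw [two_choose2]
    ring
  have e4 : (2 * ∑ i, Nat.choose (t * (N * v i - u i) + 1) 2 : ℤ) ≤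
      t ^ 2 * (N ^ 2 * Q - 2 * N * W + U) + t * N * V := by
    rw [hQ, hV, hW, hU]
    push_cast
    have h1 : ∀ i, (2 * ((Nat.choose (t * (N * v i - u i) + 1) 2 : ℕ) : ℤ)) ≤
        t ^ 2 * (N ^ 2 * v i ^ 2 - 2 * N * (v i * u i) + u i ^ 2) + t * N * v i := by
      intro i
      have h2 := two_choose (t * (N * v i - u i))
      have h3 : (2 * ((Nat.choose (t * (N * v i - u i) + 1) 2 : ℕ) : ℤ)) =
          (t * ((N * v i - u i : ℕ) : ℤ)) ^ 2 + t * ((N * v i - u i : ℕ) : ℤ) := by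
        exact_mod_cast h2
      rw [h3]
      have h4 : ((N * v i - u i : ℕ) : ℤ) ≤ N * v i := by
        have : N * v i - u i ≤ N * v i := Nat.sub_le _ _
        exact_mod_cast this
      have h5 : (((N * v i - u i : ℕ) : ℤ)) ^ 2 ≤
          (N ^ 2 * v i ^ 2 - 2 * N * (v i * u i) + u i ^ 2) := by
        rcases le_total (u i) (N * v i) with h | h
        · push_cast [Nat.cast_sub h]
          apply le_of_eq
          ring
        · rw [Nat.sub_eq_zero_of_le h]
          have h6 : (N ^ 2 * v i ^ 2 - 2 * N * (v i * u i) + u i ^ 2 : ℤ) =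
              (N * v i - u i) ^ 2 := by ring
          rw [h6]
          push_cast
          nlinarith [sq_nonneg ((N : ℤ) * v i - u i)]
      have h6 := mul_le_mul_of_nonneg_left h5 (sq_nonneg (t : ℤ))
      have h7 := mul_le_mul_of_nonneg_left h4 (Int.natCast_nonneg t)
      nlinarith
    calc (2 * ∑ i, ((Nat.choose (t * (N * v i - u i) + 1) 2 : ℕ) : ℤ))
        = ∑ i, 2 * ((Nat.choose (t * (N * v i - u i) + 1) 2 : ℕ) : ℤ) := by rw [mul_sum]
      _ ≤ ∑ i, ((t : ℤ) ^ 2 * (N ^ 2 * v i ^ 2 - 2 * N * (v i * u i) + u i ^ 2) + t * N * v i) :=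
          sum_le_sum fun i _ => h1 i
      _ = _ := by
          rw [sum_add_distrib, ← mul_sum, sum_add_distrib, sum_sub_distrib, ← mul_sum, ← mul_sum,
            ← mul_sum]
  -- the contradiction
  have f1 : (Q : ℤ) ≤ d ^ 2 := by
    rw [hQ]
    exact_mod_cast hv
  have f2 : (d * e + 1 : ℤ) ≤ W := by
    rw [hW]
    exact_mod_cast hcon
  have f3 : (c : ℤ) = N * d - e := by
    have : ((c + e : ℕ) : ℤ) = ((N * d : ℕ) : ℤ) := by rw [hc]
    push_cast at this
    linarith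
  have g1 : ((∑ i, Nat.choose (N * t * v i + 1) 2 : ℕ) : ℤ) * 2 =
      (N * t) ^ 2 * Q + N * t * V := by
    rw [mul_comm]
    exact_mod_cast e1
  have g2 : ((Nat.choose (N * t * d + 2) 2 : ℕ) : ℤ) * 2 =
      (N * t) ^ 2 * d ^ 2 + 3 * (N * t * d) + 2 := by
    rw [mul_comm]
    exact_mod_cast e2
  have g3 : ((Nat.choose (t * c + 2) 2 : ℕ) : ℤ) * 2 =
      t ^ 2 * c ^ 2 + 3 * (t * c) + 2 := by
    rw [mul_comm]
    exact_mod_cast e3
  have g4 : ((∑ i, Nat.choose (t * (N * v i - u i) + 1) 2 : ℕ) : ℤ) * 2 ≤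
      t ^ 2 * (N ^ 2 * Q - 2 * N * W + U) + t * N * V := by
    rw [mul_comm]
    push_cast
    push_cast at e4
    exact e4
  have key2 : ((Nat.choose (t * c + 2) 2 : ℕ) : ℤ) ≤
      ((Nat.choose (N * t * d + 2) 2 - ∑ i, Nat.choose (N * t * v i + 1) 2 : ℕ) : ℤ) +
        ((∑ i, Nat.choose (t * (N * v i - u i) + 1) 2 : ℕ) : ℤ) := by
    exact_mod_cast hlo.trans (Nat.add_le_add_right key _)
  generalize (∑ i, Nat.choose (N * t * v i + 1) 2) = A at *
  generalize Nat.choose (N * t * d + 2) 2 = B at *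
  generalize Nat.choose (t * c + 2) 2 = D at *
  generalize (∑ i, Nat.choose (t * (N * v i - u i) + 1) 2) = E at *
  have ht' : (t : ℤ) = k0 + N * V + 3 * (N * d) + 3 := by
    rw [ht]
    push_cast
    ring
  have hN' : (N : ℤ) = U + e + 1 := by
    rw [hN]
    push_cast
    ring
  have htpos : (0 : ℤ) < t := by
    rw [ht']
    positivity
  have hmax : ((B - A : ℕ) : ℤ) * 2 ≤
      (N * t) ^ 2 * (d ^ 2 - Q) + 3 * (N * t * d) + 2 := by
    rcases le_total A B with h | h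
    · rw [Nat.cast_sub h]
      have h8 : (0 : ℤ) ≤ N * t * V := by positivity
      nlinarith
    · rw [Nat.sub_eq_zero_of_le h]
      have h8 : (0 : ℤ) ≤ (N * t) ^ 2 * (d ^ 2 - Q) := mul_nonneg (sq_nonneg _) (by linarith)
      have h9 : (0 : ℤ) ≤ N * t * d := by positivity
      push_cast
      linarith
  have hfin : (t : ℤ) ^ 2 * (c ^ 2 - (N ^ 2 * Q - 2 * N * W + U) - N ^ 2 * (d ^ 2 - Q)) ≤
      t * (N * V + 3 * (N * d)) := by
    have h8 : (0 : ℤ) ≤ t * c := by positivity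
    nlinarith
  have hone : (1 : ℤ) ≤ c ^ 2 - (N ^ 2 * Q - 2 * N * W + U) - N ^ 2 * (d ^ 2 - Q) := by
    have h8 : (c : ℤ) ^ 2 - (N ^ 2 * Q - 2 * N * W + U) - N ^ 2 * (d ^ 2 - Q) =
        2 * N * (W - d * e) + e ^ 2 - U := by
      rw [f3]
      ring
    rw [h8]
    have h9 : (N : ℤ) * 1 ≤ N * (W - d * e) :=
      mul_le_mul_of_nonneg_left (by linarith) (Int.natCast_nonneg N)
    have h10 : (0 : ℤ) ≤ e ^ 2 := sq_nonneg _
    have h11 : (0 : ℤ) ≤ U := Int.natCast_nonneg U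
    have h12 : (0 : ℤ) ≤ e := Int.natCast_nonneg e
    nlinarith
  have hlast : (t : ℤ) ^ 2 * 1 ≤ t * (N * V + 3 * (N * d)) :=
    (mul_le_mul_of_nonneg_left hone (sq_nonneg _)).trans hfin
  have h13 : (t : ℤ) ≤ N * V + 3 * (N * d) := by
    have : (t : ℤ) * t ≤ t * (N * V + 3 * (N * d)) := by nlinarith
    exact le_of_mul_le_mul_left this htpos
  have h14 : (0 : ℤ) ≤ k0 := Int.natCast_nonneg k0
  linarith

end Pool.Agent.Q14.WR
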