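import Pool.Agent.H200W.Stm5

/-!
# Project WR (helper200), job NEFWIDE: real classes in wide form are nef
-/

set_option autoImplicit false

namespace Pool.Agent.Q14.WR

open MvPolynomial Finset Pool.Agent.H932R3 Pool.Agent.W609.CR Pool.Agent.H200W

theorem nefWide : Pool.Agent.H200W.S_NefWide := by
  intro hK1 n P hP c x hW hc G e u hG hGe hGu
  obtain ⟨p, S, M, s, hp, hpS, hout, hSne, h20, h21, h10, hSx, hcard, hc1, hc2, hbig⟩ := hW
  by_contra hcon
  push Not at hcon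
  obtain ⟨i₀, hi₀⟩ := hSne
  have hM : 0 < M := (hSx i₀ hi₀).1.trans_le (hSx i₀ hi₀).2
  have hs : 1 ≤ s :=
    (Finset.card_pos.2 ⟨x i₀, mem_image_of_mem x hi₀⟩ : 0 < (S.image x).card).trans_le hcard
  have hp1 : 0 ≤ x (p 1) := h20.trans h21
  have hp0 : 0 ≤ x (p 0) := hp1.trans h10
  have hx0 : ∀ i, 0 ≤ x i := by
    intro i
    by_cases hi : i ∈ S
    · exact (hSx i hi).1.le
    · by_cases hj : ∃ j, p j = i
      · obtain ⟨j, rfl⟩ := hj
        have h1 : ∀ j : Fin 3, 0 ≤ x (p j) := by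
          intro j
          fin_cases j
          · exact hp0
          · exact hp1
          · exact h20
        exact h1 j
      · push Not at hj
        rw [hout i hi hj]
  have hc0 : 0 ≤ c := by linarith
  obtain ⟨m, hm0, hm⟩ : ∃ m : ℝ, 0 < m ∧ ∀ i ∈ S, m ≤ x i := by
    obtain ⟨i1, hi1, h⟩ := S.exists_min_image x ⟨i₀, hi₀⟩
    exact ⟨x i1, (hSx i1 hi1).1, h⟩
  obtain ⟨η, hη⟩ : ∃ η, η = ∑ i, x i * (u i : ℝ) - c * e := ⟨_, rfl⟩
  have hηpos : 0 < η := by
    rw [hη]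
    linarith
  have hU0 : 0 ≤ ∑ i, (u i : ℝ) := Finset.sum_nonneg fun i _ => Nat.cast_nonneg _
  obtain ⟨N, hN⟩ := exists_nat_gt (1 / m + 2 * S.card / M + (∑ i, (u i : ℝ) + 2 * e) / η)
  have ha1 : 0 ≤ 1 / m := by positivity
  have ha2 : 0 ≤ 2 * (S.card : ℝ) / M := by positivity
  have ha3 : 0 ≤ (∑ i, (u i : ℝ) + 2 * e) / η := by positivity
  have hN0 : (0 : ℝ) ≤ N := Nat.cast_nonneg N
  have hN1 : 1 ≤ N * m := by
    have h1 : 1 / m ≤ N := by linarith
    exact (div_le_iff₀ hm0).1 h1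
  have hN2 : 2 * (S.card : ℝ) ≤ N * M := by
    have h1 : 2 * (S.card : ℝ) / M ≤ N := by linarith
    exact (div_le_iff₀ hM).1 h1
  have hN3 : ∑ i, (u i : ℝ) + 2 * e < N * η := by
    have h1 : (∑ i, (u i : ℝ) + 2 * e) / η < N := by linarith
    exact (div_lt_iff₀ hηpos).1 h1
  obtain ⟨v, hv⟩ : ∃ v : Fin n → ℕ, v = fun i => ⌊(N : ℝ) * x i⌋₊ := ⟨_, rfl⟩
  obtain ⟨d, hd⟩ : ∃ d : ℕ, d = ⌈(N : ℝ) * c⌉₊ + 1 := ⟨_, rfl⟩
  obtain ⟨M', hM'⟩ : ∃ M' : ℕ, M' = ⌊(N : ℝ) * M⌋₊ := ⟨_, rfl⟩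
  have hvle : ∀ i, (v i : ℝ) ≤ N * x i := by
    intro i
    rw [hv]
    exact Nat.floor_le (mul_nonneg hN0 (hx0 i))
  have hvge : ∀ i, (N : ℝ) * x i - 1 ≤ v i := by
    intro i
    rw [hv]
    exact (Nat.sub_one_lt_floor _).le
  have hM'le : (M' : ℝ) ≤ N * M := by
    rw [hM']
    exact Nat.floor_le (mul_nonneg hN0 hM.le)
  have hdge : (N : ℝ) * c ≤ (d : ℝ) - 1 := by
    rw [hd]
    push_cast
    linarith [Nat.le_ceil ((N : ℝ) * c)]
  have hdle : (d : ℝ) ≤ N * c + 2 := by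
    rw [hd]
    push_cast
    linarith [Nat.ceil_lt_add_one (mul_nonneg hN0 hc0)]
  have hvmono : ∀ i j, x i ≤ x j → v i ≤ v j := by
    intro i j hij
    rw [hv]
    exact Nat.floor_mono (mul_le_mul_of_nonneg_left hij hN0)
  have hsq : ∑ i, v i ^ 2 ≤ d ^ 2 := by
    have h1 : (∑ i, (v i : ℝ) ^ 2) ≤ (d : ℝ) ^ 2 := by
      calc (∑ i, (v i : ℝ) ^ 2) ≤ ∑ i, (N * x i) ^ 2 :=
            Finset.sum_le_sum fun i _ => pow_le_pow_left₀ (Nat.cast_nonneg _) (hvle i) 2
        _ = N ^ 2 * ∑ i, x i ^ 2 := by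
            rw [Finset.mul_sum]
            exact Finset.sum_congr rfl fun i _ => by ring
        _ ≤ N ^ 2 * c ^ 2 := mul_le_mul_of_nonneg_left hc (sq_nonneg _)
        _ = (N * c) ^ 2 := by ring
        _ ≤ (d : ℝ) ^ 2 := pow_le_pow_left₀ (mul_nonneg hN0 hc0) (by linarith) 2
    exact_mod_cast h1
  have hwide : ∀ k : ℕ, 1064960 ≤ k → WideAt (k * d) (fun i => k * v i) := by
    intro k hk
    have hk1 : 1 ≤ k := by omega
    refine ⟨p, S, k * M', s, hp, hpS, ?_, ⟨i₀, hi₀⟩, Nat.mul_le_mul_left k (hvmono _ _ h21),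
      Nat.mul_le_mul_left k (hvmono _ _ h10), ?_, ?_, ?_, ?_, Or.inl ?_⟩
    · intro i hi hj
      have h1 : v i = 0 := by
        have h2 := hvle i
        rw [hout i hi hj, mul_zero] at h2
        exact_mod_cast le_antisymm h2 (Nat.cast_nonneg _)
      simp only [h1]
      omega
    · intro i hi
      have h1 : 1 ≤ v i := by
        rw [hv]
        refine Nat.le_floor ?_
        push_cast
        exact hN1.trans (mul_le_mul_of_nonneg_left (hm i hi) hN0)
      have h2 : v i ≤ M' := by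
        rw [hv, hM']
        exact Nat.floor_mono (mul_le_mul_of_nonneg_left (hSx i hi).2 hN0)
      exact ⟨Nat.mul_pos hk1 h1, Nat.mul_le_mul_left k h2⟩
    · have h1 : S.image (fun i => k * v i) =
          (S.image x).image (fun y => k * ⌊(N : ℝ) * y⌋₊) := by
        rw [Finset.image_image, hv]
        rfl
      rw [h1]
      exact Finset.card_image_le.trans hcard
    · have h1 : v (p 0) + v (p 1) + v (p 2) ≤ d := by
        have h2 : ((v (p 0) + v (p 1) + v (p 2) : ℕ) : ℝ) ≤ (d : ℝ) := by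
          push_cast
          have h3 := hvle (p 0)
          have h4 := hvle (p 1)
          have h5 := hvle (p 2)
          have h6 := mul_le_mul_of_nonneg_left hc1 hN0
          nlinarith
        exact_mod_cast h2
      have h2 := Nat.mul_le_mul_left k h1
      have h3 : k * (v (p 0) + v (p 1) + v (p 2)) = k * v (p 0) + k * v (p 1) + k * v (p 2) := by
        ring
      rw [h3] at h2
      exact h2
    · have h1 : v (p 0) + 1064960 * M' + 1 ≤ d := by
        have h2 : ((v (p 0) + 1064960 * M' + 1 : ℕ) : ℝ) ≤ (d : ℝ) := by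
          push_cast
          have h3 := hvle (p 0)
          have h6 := mul_le_mul_of_nonneg_left hc2 hN0
          nlinarith
        exact_mod_cast h2
      have h2 := Nat.mul_le_mul_left k h1
      have h3 : k * (v (p 0) + 1064960 * M' + 1) = k * v (p 0) + 1064960 * (k * M') + k := by
        ring
      rw [h3] at h2
      have h4 : k * v (p 0) + 1064960 * (k * M' + 1) ≤ k * d := by
        have h5 : k * v (p 0) + 1064960 * (k * M' + 1) =
            k * v (p 0) + 1064960 * (k * M') + 1064960 := by ring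
        rw [h5]
        exact (Nat.add_le_add_left hk _).trans h2
      exact h4
    · have h1 : 2 ^ 28 * s * M' ^ 2 ≤ ∑ i ∈ S, v i ^ 2 := by
        have h2 : (2 ^ 28 * s * M' ^ 2 : ℝ) ≤ ∑ i ∈ S, (v i : ℝ) ^ 2 := by
          have h3 : ∀ i ∈ S, (N : ℝ) ^ 2 * x i ^ 2 - 2 * N * M ≤ (v i : ℝ) ^ 2 := by
            intro i hi
            have h4 := hvge i
            have h5 : (1 : ℝ) ≤ N * x i := hN1.trans (mul_le_mul_of_nonneg_left (hm i hi) hN0)
            have h6 : ((N : ℝ) * x i - 1) ^ 2 ≤ (v i : ℝ) ^ 2 :=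
              pow_le_pow_left₀ (by linarith) h4 2
            have h7 := mul_le_mul_of_nonneg_left (hSx i hi).2 hN0
            nlinarith
          have h4 := Finset.sum_le_sum h3
          rw [Finset.sum_sub_distrib, ← Finset.mul_sum, Finset.sum_const, nsmul_eq_mul] at h4
          have h5 : (M' : ℝ) ^ 2 ≤ (N * M) ^ 2 := pow_le_pow_left₀ (Nat.cast_nonneg _) hM'le 2
          have h6 := mul_le_mul_of_nonneg_left hbig (sq_nonneg (N : ℝ))
          have hs1 : (1 : ℝ) ≤ s := by exact_mod_cast hs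
          have h7 : (2 : ℝ) ^ 28 * s * (M' : ℝ) ^ 2 ≤ 2 ^ 28 * s * (N * M) ^ 2 :=
            mul_le_mul_of_nonneg_left h5 (by positivity)
          have hNM : 0 ≤ (N : ℝ) * M := mul_nonneg hN0 hM.le
          have h8 : (S.card : ℝ) * (2 * N * M) ≤ (N * M) ^ 2 := by
            have := mul_le_mul_of_nonneg_right hN2 hNM
            nlinarith
          have h9 : (N * M : ℝ) ^ 2 ≤ 2 ^ 28 * s * (N * M) ^ 2 := by
            have h10 : (1 : ℝ) ≤ 2 ^ 28 * s := by nlinarith
            have := mul_le_mul_of_nonneg_right h10 (sq_nonneg (N * M : ℝ))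
            linarith
          nlinarith
        exact_mod_cast h2
      have h2 := Nat.mul_le_mul_left (k ^ 2) h1
      rw [Finset.mul_sum] at h2
      calc 2 ^ 28 * s * (k * M') ^ 2 = k ^ 2 * (2 ^ 28 * s * M' ^ 2) := by ring
        _ ≤ _ := h2
        _ = _ := Finset.sum_congr rfl fun i _ => by ring
  have hfin := hK1 hsq (fun k hk => wideAt_all (hwide k hk) hP) G e u hG hGe hGu
  have hfin' : (∑ i, (v i : ℝ) * u i) ≤ (d : ℝ) * e := by exact_mod_cast hfin
  have h1 : (∑ i, ((N : ℝ) * x i - 1) * u i) ≤ ∑ i, (v i : ℝ) * u i :=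
    Finset.sum_le_sum fun i _ => mul_le_mul_of_nonneg_right (hvge i) (Nat.cast_nonneg _)
  have h2 : (∑ i, ((N : ℝ) * x i - 1) * u i) = N * ∑ i, x i * (u i : ℝ) - ∑ i, (u i : ℝ) := by
    rw [Finset.mul_sum, ← Finset.sum_sub_distrib]
    exact Finset.sum_congr rfl fun i _ => by ring
  have h3 : (d : ℝ) * e ≤ (N * c + 2) * e := mul_le_mul_of_nonneg_right hdle (Nat.cast_nonneg _)
  rw [h2] at h1
  rw [hη] at hN3
  nlinarith

end Pool.Agent.Q14.WR
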